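import Pool.Agent.Helper45.LinK.GoalsN

/-! Packet CRE: the Cauchy-Riemann equations. -/

open Complex

namespace Pool.Agent.Helper31.LinK

open Pool.Agent.Helper45.LinK Pool.Agent.Helper95.Lin

theorem cre : S_CRE := by
  intro n E _ _ f x
  constructor
  · intro h e
    have hr : fderiv ℝ f x = (fderiv ℂ f x).restrictScalars ℝ := h.fderiv_restrictScalars ℝ
    constructor
    · rw [dzb, hr]
      simp only [ContinuousLinearMap.coe_restrictScalars', map_smul, smul_smul, I_mul_I]
      rw [neg_smul, one_smul, add_neg_cancel]
    · rw [dz, hr]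
      simp only [ContinuousLinearMap.coe_restrictScalars', map_smul, smul_smul, I_mul_I]
      rw [neg_smul, one_smul, sub_neg_eq_add, two_smul]
  · intro h h0
    have hI : ∀ e, fderiv ℝ f x (I • e) = I • fderiv ℝ f x e := by
      intro e
      have h1 := congrArg (fun y => I • y) (h0 e)
      simp only [dzb, smul_add, smul_smul, I_mul_I, smul_zero, neg_smul, one_smul] at h1
      exact (eq_of_sub_eq_zero (by rw [sub_eq_add_neg]; exact h1)).symm
    have hc : ∀ (c : ℂ) (e : Cn n), fderiv ℝ f x (c • e) = c • fderiv ℝ f x e := by
      intro c e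
      have e1 : c • e = (c.re : ℝ) • e + (c.im : ℝ) • (I • e) := by
        have : c = (c.re : ℂ) + (c.im : ℂ) * I := (re_add_im c).symm
        conv_lhs => rw [this]
        rw [add_smul, mul_smul]
        rfl
      have e2 : c • fderiv ℝ f x e = (c.re : ℝ) • fderiv ℝ f x e +
          (c.im : ℝ) • (I • fderiv ℝ f x e) := by
        have : c = (c.re : ℂ) + (c.im : ℂ) * I := (re_add_im c).symm
        conv_lhs => rw [this]
        rw [add_smul, mul_smul]
        rfl
      rw [e1, map_add, map_smul, map_smul, hI, e2]
    let L' : Cn n →L[ℂ] E :=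
      { toFun := fun e => fderiv ℝ f x e
        map_add' := fun a b => map_add _ a b
        map_smul' := fun c e => hc c e
        cont := (fderiv ℝ f x).continuous }
    have hL' : L'.restrictScalars ℝ = fderiv ℝ f x := by
      ext e
      rfl
    exact (hasFDerivAt_of_restrictScalars ℝ h.hasFDerivAt hL').differentiableAt

end Pool.Agent.Helper31.LinK
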